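import Pool.Agent.helper62.MS.SpecG

/-!
# Row ms:CVK (MP_07c750): a cover of a thin set of `SL(2, ℝ)` by boxes
-/

set_option autoImplicit false

open scoped MatrixGroups ContDiff Topology UpperHalfPlane ComplexConjugate
open UpperHalfPlane MeasureTheory Filter Set

namespace Pool.Agent.MS

open Pool.Agent.RS

theorem CVK_inv (u k : SL(2, ℝ)) :
    (u⁻¹ * k).1 0 0 = u.1 1 1 * k.1 0 0 - u.1 0 1 * k.1 1 0 ∧
    (u⁻¹ * k).1 0 1 = u.1 1 1 * k.1 0 1 - u.1 0 1 * k.1 1 1 ∧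
    (u⁻¹ * k).1 1 0 = u.1 0 0 * k.1 1 0 - u.1 1 0 * k.1 0 0 ∧
    (u⁻¹ * k).1 1 1 = u.1 0 0 * k.1 1 1 - u.1 1 0 * k.1 0 1 := by
  rw [Matrix.SpecialLinearGroup.SL2_inv_expl]
  refine ⟨?_, ?_, ?_, ?_⟩ <;>
    simp [Matrix.SpecialLinearGroup.coe_mul, Matrix.mul_apply, Fin.sum_univ_two] <;> ring

theorem CVK_det (u : SL(2, ℝ)) : u.1 0 0 * u.1 1 1 - u.1 0 1 * u.1 1 0 = 1 := by
  have h := u.2
  rwa [Matrix.det_fin_two] at h

theorem CVK_floor {y Y : ℝ} (h : |y| ≤ Y) : ⌊y⌋ ∈ Finset.Icc (-⌈Y⌉) ⌈Y⌉ := by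
  obtain ⟨h1, h2⟩ := abs_le.1 h
  rw [Finset.mem_Icc]
  constructor
  · apply Int.le_floor.2
    push_cast
    have := Int.le_ceil Y
    linarith
  · have h3 : (⌊y⌋ : ℝ) ≤ ⌈Y⌉ := (Int.floor_le y).trans (h2.trans (Int.le_ceil Y))
    exact_mod_cast h3

theorem CVK_card {Y : ℝ} (hY : 0 ≤ Y) : ((Finset.Icc (-⌈Y⌉) ⌈Y⌉).card : ℝ) ≤ 2 * Y + 3 := by
  rw [Int.card_Icc]
  have h1 : 0 ≤ ⌈Y⌉ := Int.ceil_nonneg hY
  have h2 : ((⌈Y⌉ + 1 - -⌈Y⌉).toNat : ℤ) = ⌈Y⌉ + 1 - -⌈Y⌉ := Int.toNat_of_nonneg (by linarith)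
  have h3 : (((⌈Y⌉ + 1 - -⌈Y⌉).toNat : ℤ) : ℝ) = ((⌈Y⌉ + 1 - -⌈Y⌉ : ℤ) : ℝ) := by rw [h2]
  rw [Int.cast_natCast] at h3
  rw [h3]
  push_cast
  have := Int.ceil_lt_add_one Y
  linarith

open Classical in
/-- the slope of the first column -/
noncomputable def CVK_s (R : ℝ) (k : SL(2, ℝ)) : ℝ :=
  if 1 / (2 * R) ≤ |k.1 0 0| then k.1 1 0 / k.1 0 0 else k.1 0 0 / k.1 1 0

open Classical in
/-- the index of the cell -/
noncomputable def CVK_i (R η δ : ℝ) (k : SL(2, ℝ)) : Bool × ℤ × ℤ × ℤ × ℤ × ℤ :=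
  (decide (1 / (2 * R) ≤ |k.1 0 0|), ⌊CVK_s R k / δ⌋, ⌊k.1 0 0 / η⌋, ⌊k.1 0 1 / η⌋, ⌊k.1 1 0 / η⌋, ⌊k.1 1 1 / η⌋)

theorem CVK_lower {R : ℝ} (hR : 1 ≤ R) {k : SL(2, ℝ)} (hk : ∀ i j, |k.1 i j| ≤ R) (h : ¬ 1 / (2 * R) ≤ |k.1 0 0|) :
    1 / (2 * R) ≤ |k.1 1 0| := by
  rw [not_le] at h
  have hR0 : 0 < R := by linarith
  have h1 : |k.1 0 0 * k.1 1 1| ≤ 1 / 2 := by
    rw [abs_mul]
    calc |k.1 0 0| * |k.1 1 1| ≤ 1 / (2 * R) * R := mul_le_mul h.le (hk 1 1) (abs_nonneg _) (by positivity)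
      _ = 1 / 2 := by field_simp
  have h2 : 1 / 2 ≤ |k.1 0 1 * k.1 1 0| := by
    have e : k.1 0 1 * k.1 1 0 = k.1 0 0 * k.1 1 1 - 1 := by
      have := CVK_det k
      linarith
    rw [e]
    have h3 := (abs_le.1 h1).2
    rw [abs_of_neg (by linarith)]
    linarith
  rw [abs_mul] at h2
  have h3 : |k.1 0 1| * |k.1 1 0| ≤ R * |k.1 1 0| := mul_le_mul_of_nonneg_right (hk 0 1) (abs_nonneg _)
  rw [div_le_iff₀ (by positivity)]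
  nlinarith

theorem CVK_slope {R ρ : ℝ} (hR : 1 ≤ R) {k : SL(2, ℝ)} (hk : ∀ i j, |k.1 i j| ≤ R) (hρ : |k.1 1 0| ≤ ρ) :
    |CVK_s R k| ≤ 2 * R * ρ := by
  have hR0 : 0 < R := by linarith
  have hR1 : 0 < 1 / (2 * R) := by positivity
  have hρ0 : 0 ≤ ρ := (abs_nonneg _).trans hρ
  unfold CVK_s
  split_ifs with h
  · rw [abs_div, div_le_iff₀ (hR1.trans_le h)]
    calc |k.1 1 0| ≤ ρ := hρ
      _ = 2 * R * ρ * (1 / (2 * R)) := by field_simp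
      _ ≤ 2 * R * ρ * |k.1 0 0| := by gcongr
  · have h1 := CVK_lower hR hk h
    rw [not_le] at h
    rw [abs_div, div_le_iff₀ (hR1.trans_le h1)]
    have h2 : 1 ≤ 2 * R * ρ := by
      calc (1 : ℝ) = 2 * R * (1 / (2 * R)) := by field_simp
        _ ≤ 2 * R * ρ := by gcongr; exact h1.trans hρ
    calc |k.1 0 0| ≤ 1 * |k.1 1 0| := by linarith
      _ ≤ 2 * R * ρ * |k.1 1 0| := by gcongr

theorem CVK_lt {y y' η : ℝ} (hη : 0 < η) (h : ⌊y / η⌋ = ⌊y' / η⌋) : |y - y'| ≤ η := by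
  have h1 := Int.abs_sub_lt_one_of_floor_eq_floor h
  have h2 : y / η - y' / η = (y - y') / η := by ring
  rw [h2, abs_div, abs_of_pos hη, div_lt_one hη] at h1
  exact h1.le

theorem CVK_cell {R κ X : ℝ} (hR : 1 ≤ R) (hκ : 0 < κ) (hX : 1 ≤ X) {u k : SL(2, ℝ)} (hu : ∀ i j, |u.1 i j| ≤ R)
    (hk : ∀ i j, |k.1 i j| ≤ R) (h : CVK_i R (κ / (2 * R)) (κ / (X * R ^ 2)) u = CVK_i R (κ / (2 * R)) (κ / (X * R ^ 2)) k) :
    bq κ κ (κ / X) (u⁻¹ * k) := by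
  have hR0 : 0 < R := by linarith
  have hX0 : 0 < X := by linarith
  have hη : 0 < κ / (2 * R) := by positivity
  have hδ : 0 < κ / (X * R ^ 2) := by positivity
  unfold CVK_i at h
  simp only [Prod.mk.injEq, decide_eq_decide] at h
  obtain ⟨h0, h1, h2, h3, h4, h5⟩ := h
  have d1 := CVK_lt hδ h1
  have d2 := CVK_lt hη h2
  have d3 := CVK_lt hη h3
  have d4 := CVK_lt hη h4
  have d5 := CVK_lt hη h5
  have du := CVK_det u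
  obtain ⟨e00, e01, e10, e11⟩ := CVK_inv u k
  have key : ∀ a b x y : ℝ, |a| ≤ R → |b| ≤ R → |x| ≤ κ / (2 * R) → |y| ≤ κ / (2 * R) → |a * x - b * y| ≤ κ := by
    intro a b x y ha hb hx hy
    calc |a * x - b * y| ≤ |a * x| + |b * y| := abs_sub _ _
      _ = |a| * |x| + |b| * |y| := by rw [abs_mul, abs_mul]
      _ ≤ R * (κ / (2 * R)) + R * (κ / (2 * R)) := by gcongr
      _ = κ := by field_simp; ring
  refine ⟨?_, ?_, ?_, ?_⟩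
  · rw [e00]
    have e : u.1 1 1 * k.1 0 0 - u.1 0 1 * k.1 1 0 - 1 =
        u.1 1 1 * (k.1 0 0 - u.1 0 0) - u.1 0 1 * (k.1 1 0 - u.1 1 0) := by linarith
    rw [e]
    exact key _ _ _ _ (hu 1 1) (hu 0 1) (by rwa [abs_sub_comm]) (by rwa [abs_sub_comm])
  · rw [e11]
    have e : u.1 0 0 * k.1 1 1 - u.1 1 0 * k.1 0 1 - 1 =
        u.1 0 0 * (k.1 1 1 - u.1 1 1) - u.1 1 0 * (k.1 0 1 - u.1 0 1) := by linarith
    rw [e]
    exact key _ _ _ _ (hu 0 0) (hu 1 0) (by rwa [abs_sub_comm]) (by rwa [abs_sub_comm])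
  · rw [e01]
    have e : u.1 1 1 * k.1 0 1 - u.1 0 1 * k.1 1 1 =
        u.1 1 1 * (k.1 0 1 - u.1 0 1) - u.1 0 1 * (k.1 1 1 - u.1 1 1) := by ring
    rw [e]
    exact key _ _ _ _ (hu 1 1) (hu 0 1) (by rwa [abs_sub_comm]) (by rwa [abs_sub_comm])
  · rw [e10]
    have hR1 : 0 < 1 / (2 * R) := by positivity
    have fin : ∀ a b x y : ℝ, |a| ≤ R → |b| ≤ R → |x - y| ≤ κ / (X * R ^ 2) → |a * b * (x - y)| ≤ κ / X := by
      intro a b x y ha hb hxy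
      rw [abs_mul, abs_mul]
      calc |a| * |b| * |x - y| ≤ R * R * (κ / (X * R ^ 2)) := by gcongr
        _ = κ / X := by field_simp
    by_cases hc : 1 / (2 * R) ≤ |u.1 0 0|
    · have hc' := h0.1 hc
      have n1 : u.1 0 0 ≠ 0 := abs_pos.1 (hR1.trans_le hc)
      have n2 : k.1 0 0 ≠ 0 := abs_pos.1 (hR1.trans_le hc')
      unfold CVK_s at d1
      rw [if_pos hc, if_pos hc', abs_sub_comm] at d1
      have e : u.1 0 0 * k.1 1 0 - u.1 1 0 * k.1 0 0 =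
          u.1 0 0 * k.1 0 0 * (k.1 1 0 / k.1 0 0 - u.1 1 0 / u.1 0 0) := by
        field_simp
      rw [e]
      exact fin _ _ _ _ (hu 0 0) (hk 0 0) d1
    · have hc' := fun h => hc (h0.2 h)
      have n1 : u.1 1 0 ≠ 0 := abs_pos.1 (hR1.trans_le (CVK_lower hR hu hc))
      have n2 : k.1 1 0 ≠ 0 := abs_pos.1 (hR1.trans_le (CVK_lower hR hk hc'))
      unfold CVK_s at d1
      rw [if_neg hc, if_neg hc'] at d1
      have e : u.1 0 0 * k.1 1 0 - u.1 1 0 * k.1 0 0 =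
          u.1 1 0 * k.1 1 0 * (u.1 0 0 / u.1 1 0 - k.1 0 0 / k.1 1 0) := by
        field_simp
      rw [e]
      exact fin _ _ _ _ (hu 1 0) (hk 1 0) d1

theorem CVK_proof : CVK_stmt := by
  classical
  intro R κ hR hκ hκ1
  have hR0 : 0 < R := by linarith
  refine ⟨2 * ((4 * R ^ 3 / κ + 3) * (4 * R ^ 2 / κ + 3) ^ 4), by positivity, fun X ρ hX hρ => ?_⟩
  have hX0 : 0 < X := by linarith
  obtain ⟨η, hη⟩ : ∃ η, η = κ / (2 * R) := ⟨_, rfl⟩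
  obtain ⟨δ, hδ⟩ : ∃ δ, δ = κ / (X * R ^ 2) := ⟨_, rfl⟩
  have hη0 : 0 < η := by rw [hη]; positivity
  have hδ0 : 0 < δ := by rw [hδ]; positivity
  obtain ⟨I, hI⟩ : ∃ I : Finset (Bool × ℤ × ℤ × ℤ × ℤ × ℤ), I = (Finset.univ : Finset Bool) ×ˢ
      (Finset.Icc (-⌈2 * R * ρ / δ⌉) ⌈2 * R * ρ / δ⌉ ×ˢ (Finset.Icc (-⌈R / η⌉) ⌈R / η⌉ ×ˢ
        (Finset.Icc (-⌈R / η⌉) ⌈R / η⌉ ×ˢ (Finset.Icc (-⌈R / η⌉) ⌈R / η⌉ ×ˢ Finset.Icc (-⌈R / η⌉) ⌈R / η⌉)))) := ⟨_, rfl⟩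
  obtain ⟨S, hS⟩ : ∃ S : Set SL(2, ℝ), S = {k | (∀ i j, |k.1 i j| ≤ R) ∧ |k.1 1 0| ≤ ρ} := ⟨_, rfl⟩
  have hSI : ∀ k ∈ S, CVK_i R η δ k ∈ I := by
    intro k hk
    rw [hS] at hk
    have h1 : ∀ i j, |k.1 i j / η| ≤ R / η := by
      intro i j
      rw [abs_div, abs_of_pos hη0]
      exact div_le_div_of_nonneg_right (hk.1 i j) hη0.le
    have h2 : |CVK_s R k / δ| ≤ 2 * R * ρ / δ := by
      rw [abs_div, abs_of_pos hδ0]
      exact div_le_div_of_nonneg_right (CVK_slope hR hk.1 hk.2) hδ0.le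
    rw [hI]
    simp only [Finset.mem_product]
    exact ⟨Finset.mem_univ _, CVK_floor h2, CVK_floor (h1 0 0), CVK_floor (h1 0 1), CVK_floor (h1 1 0), CVK_floor (h1 1 1)⟩
  have hrep : ∀ i : Bool × ℤ × ℤ × ℤ × ℤ × ℤ, ∃ u : SL(2, ℝ), (∃ k ∈ S, CVK_i R η δ k = i) → u ∈ S ∧ CVK_i R η δ u = i := by
    intro i
    by_cases h : ∃ k ∈ S, CVK_i R η δ k = i
    · obtain ⟨k, hk, e⟩ := h
      exact ⟨k, fun _ => ⟨hk, e⟩⟩
    · exact ⟨1, fun h' => absurd h' h⟩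
  choose rep hrep using hrep
  refine ⟨I.image rep, ?_, fun k hk1 hk2 => ?_⟩
  · have h1 : ((I.image rep).card : ℝ) ≤ I.card := by exact_mod_cast Finset.card_image_le
    have hs : 0 ≤ 2 * R * ρ / δ := by positivity
    have hr : 0 ≤ R / η := by positivity
    have c1 := CVK_card hs
    have c2 := CVK_card hr
    have e1 : 2 * (2 * R * ρ / δ) = 4 * R ^ 3 / κ * (ρ * X) := by
      rw [hδ]
      field_simp
      ring
    have e2 : 2 * (R / η) = 4 * R ^ 2 / κ := by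
      rw [hη]
      field_simp
      ring
    rw [e1] at c1
    rw [e2] at c2
    have h2 : (I.card : ℝ) = 2 * (((Finset.Icc (-⌈2 * R * ρ / δ⌉) ⌈2 * R * ρ / δ⌉).card : ℝ) *
        ((Finset.Icc (-⌈R / η⌉) ⌈R / η⌉).card : ℝ) ^ 4) := by
      rw [hI]
      simp only [Finset.card_product, Finset.card_univ, Fintype.card_bool]
      push_cast
      ring
    refine h1.trans ?_
    rw [h2]
    have h3 : 4 * R ^ 3 / κ * (ρ * X) + 3 ≤ (4 * R ^ 3 / κ + 3) * (1 + ρ * X) := by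
      have a1 : 0 ≤ 4 * R ^ 3 / κ := by positivity
      have a2 : 0 ≤ ρ * X := by positivity
      nlinarith
    calc 2 * (((Finset.Icc (-⌈2 * R * ρ / δ⌉) ⌈2 * R * ρ / δ⌉).card : ℝ) * ((Finset.Icc (-⌈R / η⌉) ⌈R / η⌉).card : ℝ) ^ 4) ≤
        2 * (((4 * R ^ 3 / κ + 3) * (1 + ρ * X)) * (4 * R ^ 2 / κ + 3) ^ 4) := by
          gcongr
          exact c1.trans h3
      _ = 2 * ((4 * R ^ 3 / κ + 3) * (4 * R ^ 2 / κ + 3) ^ 4) * (1 + ρ * X) := by ring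
  · have hkS : k ∈ S := by
      rw [hS]
      exact ⟨hk1, hk2⟩
    obtain ⟨h1, h2⟩ := hrep _ ⟨k, hkS, rfl⟩
    refine ⟨rep (CVK_i R η δ k), Finset.mem_image_of_mem _ (hSI k hkS), ?_⟩
    have h3 := h1
    rw [hS] at h3
    rw [hη, hδ] at h2 ⊢
    rw [hη, hδ] at h3
    exact CVK_cell hR hκ hX h3.1 hk1 h2

end Pool.Agent.MS
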